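import Pool.Agent.MP_dbd6a6_co.H70.Spec

/-! Kernel friendly evaluation of the polynomials `A n` and of their signs. -/

namespace Pool.Agent.MP_dbd6a6_co.H57

/-- evaluate `n` before passing it on -/
def frc {α : Type} (n : ℕ) (k : ℕ → α) : α := Nat.casesOn n (k 0) fun m => k m.succ

/-- evaluate `z` before passing it on -/
def frcI {α : Type} (z : ℤ) (k : ℤ → α) : α :=
  Int.casesOn z (fun n => frc n fun n => k (Int.ofNat n)) fun n => frc n fun n => k (Int.negSucc n)

theorem frc_eq {α : Type} (n : ℕ) (k : ℕ → α) : frc n k = k n := by cases n <;> rfl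

theorem frcI_eq {α : Type} (z : ℤ) (k : ℤ → α) : frcI z k = k z := by
  cases z <;> simp only [frcI, frc_eq]

/-- sign and absolute value -/
def sm (z : ℤ) : Bool × ℕ := (decide (0 ≤ z), z.natAbs)

def mList (x : ℤ) : ℕ → ℕ → ℤ → ℤ → List (Bool × ℕ)
  | 0, _, _, _ => []
  | f + 1, n, g, h => frcI (((2 - x) * (2 * n + 5) * h - x ^ 2 * (n + 1) * g) / (n + 4)) fun v =>
      frc (n + 1) fun n' => sm (-x * (1 - x) * g) :: mList x f n' h v

def dotc (k : ℕ) : List ℕ → List (Bool × ℕ) → ℕ → ℕ → ℕ → ℕ → ℕ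
  | a :: l, b :: l', j, c, p, q => frc (c * (k - j) / (j + 1)) fun c' => frc (j + 1) fun j' =>
      cond b.1 (dotc k l l' j' c' p (Nat.add (Nat.mul (Nat.mul c' a) b.2) q))
        (dotc k l l' j' c' (Nat.add (Nat.mul (Nat.mul c' a) b.2) p) q)
  | _, _, _, _, p, q => p - q

def aList (ms : List (Bool × ℕ)) : List (Bool × ℕ) → ℕ → List ℕ → List ℕ
  | [], _, as => as
  | m :: rest, k, as => frc (dotc k as ms 0 1 (cond m.1 0 m.2) (cond m.1 m.2 0)) fun v =>
      frc (k + 1) fun k' => aList ms rest k' (v :: as)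

def scl (B E : ℕ) : ℕ → ℕ → List ℕ → List ℕ
  | 0, _, acc => acc
  | r + 1, a, acc => frc (a % B * 3 ^ (E * r)) fun c => frc (a / B) fun a' =>
      scl B E r a' (c :: acc)

noncomputable def hor (w : ℕ) (l : List ℕ) : ℕ :=
  List.rec 0 (fun c _ v => Nat.add c (Nat.mul w v)) l

def split {α : Type} (k : List ℕ → List ℕ → α) : List ℕ → List ℕ → List ℕ → α
  | [], e, o => k e o
  | c :: l, e, o => split k l (c :: o) e

/-- the grid of test points -/
def val (N : ℕ) : ℕ := (64 + N % 128) * 3 ^ (N / 128)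

def allPts (P : ℕ → ℕ → Bool) : List ℕ → ℕ → ℕ → Bool
  | [], _, _ => true
  | g :: L, i, acc => frc (acc + g) fun N => P i N && frc (i + 1) fun i' => allPts P L i' (N + 1)

noncomputable def sgn (e o : List ℕ) (i u : ℕ) : Bool := frc (u * u) fun w =>
  cond (Nat.beq (i % 2) 0) (Nat.blt (hor w e) (Nat.mul u (hor w o)))
    (Nat.blt (Nat.mul u (hor w o)) (hor w e))

noncomputable def sgn2 (e o e' o' : List ℕ) (i N : ℕ) : Bool :=
  cond (Nat.blt N 13696) (frc (val N) (sgn e o i)) (frc (val (N - 13696)) (sgn e' o' i))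

noncomputable def sgnA (B r a : ℕ) (k : (ℕ → ℕ → Bool) → Bool) : Bool :=
  split (fun e o => split (fun e' o' => k (sgn2 e o e' o')) (scl B 20 r a []) [] [])
    (scl B 127 r a []) [] []

noncomputable def chk1 (B : ℕ) : List ℕ → List (List ℕ) → ℕ → Bool
  | a :: as, t :: ts, n => (Nat.beq t.length (n / 2) &&
      sgnA B (n / 2 + 1) a fun P => allPts P t 0 0) && frc (n - 1) fun n' => chk1 B as ts n'
  | _, [], _ => true
  | [], _ :: _, _ => false

noncomputable def chk2 (B : ℕ) : List ℕ → List ℕ → Bool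
  | a :: b :: _, t => Nat.beq t.length 198 && sgnA B 101 a fun P => sgnA B 100 b fun Q =>
      allPts (fun i N => P ((i + 1) / 2) N && Q (i / 2) N) t 0 0
  | _, _ => false

def mAll (B : ℕ) : List (Bool × ℕ) := sm (-B) :: mList B 199 0 1 (2 - B)

def aAll (B : ℕ) : List ℕ := aList (mAll B) (mAll B) 0 []

noncomputable def chkA (B j : ℕ) (ts : List (List ℕ)) : Bool :=
  frc B fun B => chk1 B ((aAll B).drop j) ts (200 - j)

noncomputable def chkB (B : ℕ) (t : List ℕ) : Bool := frc B fun B => chk2 B (aAll B) t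

end Pool.Agent.MP_dbd6a6_co.H57
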