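import Pool.Agent.MP_dbd6a6_co.H57.Comp

/-! Correctness of the kernel computation. -/

namespace Pool.Agent.MP_dbd6a6_co.H57

open Finset H92

open PowerSeries in
theorem hh_lin (x : ℤ) (n : ℕ) : ((n : ℤ) + 4) * hh x (n + 2) =
    (2 - x) * (2 * n + 5) * hh x (n + 1) - x ^ 2 * (n + 1) * hh x n := by
  obtain ⟨H, hH⟩ : ∃ H : ℤ⟦X⟧, H = mk (hh x) := ⟨_, rfl⟩
  have E1 : H = 1 + C (2 - x) * (X * H) + C (1 - x) * (X * (X * (H * H))) := by
    ext k
    rcases k with _ | _ | k
    · simp [hH, hh_zero]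
    · simp only [map_add, coeff_C_mul, coeff_succ_X_mul, coeff_one, coeff_zero_X_mul]
      simp [hH, hh_succ]
    · simp only [map_add, coeff_C_mul, coeff_succ_X_mul, coeff_one]
      rw [coeff_mul, Finset.Nat.sum_antidiagonal_eq_sum_range_succ_mk]
      simp [hH, hh_succ]
  have E2 := congrArg (d⁄dX ℤ) E1
  simp only [map_add, Derivation.leibniz, derivative_C, derivative_X, smul_eq_mul,
    Derivation.map_one_eq_zero] at E2
  have T : X * d⁄dX ℤ H - 2 * (C (2 - x) * (X * (X * d⁄dX ℤ H))) +
      C (x ^ 2) * (X * (X * (X * d⁄dX ℤ H))) =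
      2 - 2 * H + 3 * (C (2 - x) * (X * H)) - C (x ^ 2) * (X * (X * H)) := by
    simp only [map_sub, map_pow, map_ofNat, map_one] at E1 E2 ⊢
    linear_combination (X * (1 - (2 - C x) * X - 2 * (1 - C x) * X ^ 2 * H)) * E2 +
      (4 * (1 - C x) * X ^ 3 * d⁄dX ℤ H + 2 * (2 - (2 - C x) * X) -
        2 * (1 - (2 - C x) * X - 2 * (1 - C x) * X ^ 2 * H)) * E1
  have hX : ∀ k, coeff k (X * d⁄dX ℤ H) = k * hh x k := by
    rintro (_ | k)
    · simp
    · rw [coeff_succ_X_mul, coeff_derivative, hH, coeff_mk]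
      push_cast
      ring
  have := congrArg (coeff (n + 2)) T
  have e2 : ∀ f : ℤ⟦X⟧, coeff (n + 2) (2 * f) = 2 * coeff (n + 2) f := fun f => by
    rw [two_mul, map_add, two_mul]
  have e3 : ∀ f : ℤ⟦X⟧, coeff (n + 2) (3 * f) = 3 * coeff (n + 2) f := fun f => by
    rw [show (3 : ℤ⟦X⟧) * f = f + f + f by ring, map_add, map_add]
    ring
  have e4 : coeff (n + 2) (2 : ℤ⟦X⟧) = 0 := by
    rw [show (2 : ℤ⟦X⟧) = 1 + 1 from one_add_one_eq_two.symm, map_add, coeff_one]
    simp
  generalize X * d⁄dX ℤ H = D at this hX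
  simp only [LinearMap.map_add, LinearMap.map_sub, e2, e3, e4, coeff_C_mul,
    coeff_succ_X_mul, hX] at this
  simp only [hH, coeff_mk] at this
  push_cast at this
  linear_combination this

theorem mList_eq (x : ℤ) (f : ℕ) : ∀ n, mList x f n (hh x n) (hh x (n + 1)) =
    (List.range f).map fun i => sm (mm x (n + i + 2)) := by
  induction f with
  | zero => intro n; rfl
  | succ f ih =>
    intro n
    rw [mList, frcI_eq, frc_eq, ← hh_lin, Int.mul_ediv_cancel_left _ (by omega), ih,
      List.range_succ_eq_map, List.map_cons, List.map_map]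
    congr 1
    refine List.map_congr_left fun i _ => ?_
    simp only [Function.comp, Nat.succ_eq_add_one]
    congr 2
    omega

theorem mAll_eq (B : ℕ) : mAll B = (List.range 200).map fun i => sm (mm (B : ℤ) (i + 1)) := by
  have h := mList_eq B 199 0
  rw [hh_zero, hh_succ, hh_zero] at h
  simp only [range_zero, sum_empty, mul_zero, add_zero, mul_one, zero_add] at h
  rw [mAll, h, List.range_succ_eq_map (n := 199), List.map_cons, List.map_map]
  rfl

theorem dotc_eq (k t : ℕ) : ∀ (fa : ℕ → ℕ) (fm : ℕ → ℤ) (t' j p q : ℕ), t ≤ t' →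
    dotc k ((List.range t).map fa) ((List.range t').map fun i => sm (fm i)) j (k.choose j) p q =
      ((p : ℤ) - q - ∑ i ∈ range t, (k.choose (j + 1 + i) : ℤ) * fa i * fm i).toNat := by
  induction t with
  | zero =>
    intro fa fm t' j p q _
    simp [dotc]
  | succ t ih =>
    intro fa fm t' j p q ht
    obtain ⟨t', rfl⟩ : ∃ s, t' = s + 1 := ⟨t' - 1, by omega⟩
    rw [List.range_succ_eq_map, List.range_succ_eq_map, List.map_cons, List.map_cons, List.map_map,
      List.map_map, dotc, frc_eq, frc_eq, ← Nat.choose_succ_right_eq,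
      Nat.mul_div_cancel _ (Nat.succ_pos j), sum_range_succ']
    have h1 := ih (fa ∘ Nat.succ) (fm ∘ Nat.succ) t' (j + 1)
    have e : ∑ i ∈ range t, (k.choose (j + 1 + 1 + i) : ℤ) * (fa ∘ Nat.succ) i * (fm ∘ Nat.succ) i =
        ∑ i ∈ range t, (k.choose (j + 1 + (i + 1)) : ℤ) * fa (i + 1) * fm (i + 1) :=
      sum_congr rfl fun i _ => by rw [show j + 1 + 1 + i = j + 1 + (i + 1) by omega]; rfl
    rw [e] at h1
    by_cases h : 0 ≤ fm 0
    · simp only [sm, h, decide_true, cond_true]
      refine (h1 _ _ (by omega)).trans ?_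
      congr 1
      simp only [Nat.add_eq, Nat.mul_eq, Nat.cast_add, Nat.cast_mul, Int.natCast_natAbs,
        abs_of_nonneg h]
      ring
    · simp only [sm, h, decide_false, cond_false]
      refine (h1 _ _ (by omega)).trans ?_
      congr 1
      simp only [Nat.add_eq, Nat.mul_eq, Nat.cast_add, Nat.cast_mul, Int.natCast_natAbs,
        abs_of_neg (not_le.1 h)]
      ring

theorem aList_eq (x : ℤ) (a : ℕ → ℕ) (ha : ∀ n, (a n : ℤ) = Polynomial.aeval x (A n)) (N f : ℕ) :
    ∀ k, k + f ≤ N → aList ((List.range N).map fun i => sm (mm x (i + 1)))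
      ((List.range f).map fun i => sm (mm x (k + i + 1))) k
      ((List.range k).map fun i => a (k - i)) = (List.range (k + f)).map fun i => a (k + f - i) := by
  induction f with
  | zero => intro k _; rfl
  | succ f ih =>
    intro k hk
    rw [List.range_succ_eq_map, List.map_cons, List.map_map, aList, frc_eq, frc_eq]
    have h1 := dotc_eq k k (fun i => a (k - i)) (fun i => mm x (i + 1)) N 0
      (cond (sm (mm x (k + 0 + 1))).1 0 (sm (mm x (k + 0 + 1))).2)
      (cond (sm (mm x (k + 0 + 1))).1 (sm (mm x (k + 0 + 1))).2 0) (by omega)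
    rw [Nat.choose_zero_right] at h1
    have h2 : ((cond (sm (mm x (k + 0 + 1))).1 0 (sm (mm x (k + 0 + 1))).2 : ℕ) : ℤ) -
        (cond (sm (mm x (k + 0 + 1))).1 (sm (mm x (k + 0 + 1))).2 0 : ℕ) = - mm x (k + 1) := by
      by_cases h : 0 ≤ mm x (k + 1)
      · simp [sm, h, abs_of_nonneg h]
      · simp [sm, h, abs_of_neg (not_le.1 h)]
    have h3 : - mm x (k + 1) - ∑ i ∈ range k, (k.choose (0 + 1 + i) : ℤ) * a (k - i) * mm x (i + 1) =
        a (k + 1) := by
      rw [cumulant_A, sum_range_succ, ← sum_range_reflect, ← ha]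
      have : ∑ j ∈ range k, (k.choose (k - 1 - j) : ℤ) *
          (-Polynomial.aeval x (A (k - 1 - j + 1)) * mm x (k - (k - 1 - j))) =
          - ∑ i ∈ range k, (k.choose (0 + 1 + i) : ℤ) * a (k - i) * mm x (i + 1) := by
        rw [← sum_neg_distrib]
        refine sum_congr rfl fun i hi => ?_
        have := mem_range.1 hi
        rw [← ha, show k - 1 - i + 1 = k - i by omega, show k - (k - 1 - i) = i + 1 by omega,
          show k - 1 - i = k - (0 + 1 + i) by omega, Nat.choose_symm (by omega)]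
        ring
      rw [this]
      simp [mm]
    rw [h1, h2, h3, Int.toNat_natCast]
    have h4 := ih (k + 1) (by omega)
    rw [List.range_succ_eq_map (n := k), List.map_cons, List.map_map] at h4
    rw [show k + (f + 1) = k + 1 + f by omega, ← h4]
    congr 1
    · refine List.map_congr_left fun i _ => ?_
      simp only [Function.comp, Nat.succ_eq_add_one]
      congr 2
      omega
    · congr 1
      refine List.map_congr_left fun i _ => ?_
      simp

theorem aAll_eq (B : ℕ) (a : ℕ → ℕ) (ha : ∀ n, (a n : ℤ) = Polynomial.aeval (B : ℤ) (A n)) :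
    aAll B = (List.range 200).map fun i => a (200 - i) := by
  have h := aList_eq B a ha 200 200 0 le_rfl
  simp only [zero_add] at h
  rw [aAll, mAll_eq, ← h]
  rfl

/-- the coefficients as natural numbers -/
noncomputable def cf (n j : ℕ) : ℕ := #{w ∈ W (Icc 1 (n - 1)) | des (stackSort w) + 1 = j}

theorem coeff_A (n j : ℕ) : (A n).coeff j = cf n j := by
  rw [A_eq, Polynomial.finsetSum_coeff, cf, card_filter]
  push_cast
  exact sum_congr rfl fun w _ => by simp [Polynomial.coeff_X_pow, eq_comm]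

theorem cf_le (n j : ℕ) : cf n j ≤ (n - 1).factorial := by
  refine (card_filter_le _ _).trans ?_
  rw [W]
  refine (List.toFinset_card_le _).trans ?_
  simp [List.length_permutations]

theorem ofDigits_range {R : Type} [CommSemiring R] (x : R) (r : ℕ) : ∀ f : ℕ → ℕ,
    Nat.ofDigits x ((List.range r).map f) = ∑ j ∈ range r, (f j : R) * x ^ j := by
  induction r with
  | zero => intro f; simp [Nat.ofDigits]
  | succ r ih =>
    intro f
    rw [List.range_succ_eq_map, List.map_cons, List.map_map, Nat.ofDigits, ih, sum_range_succ',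
      mul_sum]
    simp only [Function.comp, Nat.succ_eq_add_one, pow_zero, mul_one]
    rw [add_comm]
    congr 1
    exact sum_congr rfl fun i _ => by ring

theorem aeval_eq {R : Type} [CommRing R] (x : R) {n r : ℕ} (h : (A n).natDegree < r) :
    Polynomial.aeval x (A n) = Nat.ofDigits x ((List.range r).map (cf n)) := by
  rw [Polynomial.aeval_eq_sum_range' h, ofDigits_range]
  exact sum_congr rfl fun j _ => by simp [coeff_A]

/-- the value of `A n` at a natural number -/
noncomputable def aN (B n : ℕ) : ℕ :=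
  Nat.ofDigits B ((List.range ((A n).natDegree + 1)).map (cf n))

theorem aN_cast (B n : ℕ) : (aN B n : ℤ) = Polynomial.aeval (B : ℤ) (A n) := by
  rw [aeval_eq _ (Nat.lt_succ_self _), aN, Nat.coe_ofDigits]

theorem aN_eq (B : ℕ) {n r : ℕ} (h : (A n).natDegree < r) :
    aN B n = Nat.ofDigits B ((List.range r).map (cf n)) := by
  have := aN_cast B n
  rw [aeval_eq _ h, ← Nat.coe_ofDigits] at this
  exact_mod_cast this

theorem scl_fold (B E : ℕ) (u : ℝ) (cs : List ℕ) (hc : ∀ c ∈ cs, c < B) : ∃ V : ℝ,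
    3 ^ E * V = (3 ^ E) ^ cs.length * Nat.ofDigits (-(u / 3 ^ E)) cs ∧ ∀ acc,
      (scl B E cs.length (Nat.ofDigits B cs) acc).foldl (fun (v : ℝ) (c : ℕ) => c - u * v) 0 =
        acc.foldl (fun (v : ℝ) (c : ℕ) => c - u * v) V := by
  induction cs with
  | nil => exact ⟨0, by simp [Nat.ofDigits], fun _ => rfl⟩
  | cons c cs ih =>
    obtain ⟨V, h1, h2⟩ := ih fun c h => hc c (List.mem_cons_of_mem _ h)
    have h3 : c < B := hc c List.mem_cons_self
    refine ⟨(c * 3 ^ (E * cs.length) : ℕ) - u * V, ?_, fun acc => ?_⟩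
    · rw [Nat.ofDigits, List.length_cons, pow_succ]
      push_cast
      rw [pow_mul]
      have : (3 : ℝ) ^ E ≠ 0 := by positivity
      field_simp
      linear_combination (-u) * h1
    · rw [List.length_cons, scl, frc_eq, frc_eq, Nat.ofDigits_cons, Nat.add_mul_mod_self_left,
        Nat.mod_eq_of_lt h3, Nat.add_mul_div_left _ _ (by omega), Nat.div_eq_of_lt h3, zero_add, h2,
        List.foldl_cons]

theorem split_fold (l : List ℕ) : ∀ e o, ∃ e' o', (∀ k : List ℕ → List ℕ → Bool,
    split k l e o = k e' o') ∧ ∀ u : ℕ, (hor (u * u) e' : ℝ) - u * hor (u * u) o' =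
      l.foldl (fun (v : ℝ) (c : ℕ) => c - u * v) ((hor (u * u) e : ℝ) - u * hor (u * u) o) := by
  induction l with
  | nil => exact fun e o => ⟨e, o, fun _ => rfl, fun _ => rfl⟩
  | cons c l ih =>
    intro e o
    obtain ⟨e', o', h1, h2⟩ := ih (c :: o) e
    refine ⟨e', o', h1, fun u => ?_⟩
    rw [h2, List.foldl_cons]
    congr 1
    rw [show hor (u * u) (c :: o) = c + u * u * hor (u * u) o from rfl]
    push_cast
    ring

theorem sgn_spec (B E : ℕ) (cs : List ℕ) (hc : ∀ c ∈ cs, c < B) : ∃ e o,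
    (∀ k : List ℕ → List ℕ → Bool, split k (scl B E cs.length (Nat.ofDigits B cs) []) [] [] =
      k e o) ∧ ∀ i u : ℕ, sgn e o i u = true →
        0 < (-1) ^ i * -Nat.ofDigits (-((u : ℝ) / 3 ^ E)) cs := by
  obtain ⟨e, o, h1, h2⟩ := split_fold (scl B E cs.length (Nat.ofDigits B cs) []) [] []
  refine ⟨e, o, h1, fun i u h => ?_⟩
  obtain ⟨V, h3, h4⟩ := scl_fold B E u cs hc
  have h5 := h2 u
  rw [show hor (u * u) [] = 0 from rfl, Nat.cast_zero, mul_zero, sub_zero, h4, List.foldl_nil] at h5
  have h6 : 0 < (-1) ^ i * -V := by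
    rw [sgn, frc_eq] at h
    rcases Nat.even_or_odd i with hi | hi
    · rw [Nat.even_iff.1 hi] at h
      have : hor (u * u) e < u * hor (u * u) o := by simpa using h
      have : (hor (u * u) e : ℝ) < u * hor (u * u) o := by exact_mod_cast this
      rw [hi.neg_one_pow]
      linarith
    · rw [Nat.odd_iff.1 hi] at h
      have : u * hor (u * u) o < hor (u * u) e := by simpa using h
      have : (u : ℝ) * hor (u * u) o < hor (u * u) e := by exact_mod_cast this
      rw [hi.neg_one_pow]
      linarith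
  have h7 : 0 < (3 ^ E) ^ cs.length * ((-1) ^ i * -Nat.ofDigits (-((u : ℝ) / 3 ^ E)) cs) := by
    have : (3 ^ E) ^ cs.length * ((-1) ^ i * -Nat.ofDigits (-((u : ℝ) / 3 ^ E)) cs) =
        3 ^ E * ((-1) ^ i * -V) := by linear_combination (-1) ^ i * h3
    rw [this]
    positivity
  exact (mul_pos_iff_of_pos_left (by positivity)).1 h7

theorem val_shift {N : ℕ} (h : 13696 ≤ N) : val N = val (N - 13696) * 3 ^ 107 := by
  obtain ⟨M, rfl⟩ := Nat.exists_eq_add_of_le h
  rw [Nat.add_sub_cancel_left, val, val, show (13696 + M) % 128 = M % 128 by omega,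
    show (13696 + M) / 128 = M / 128 + 107 by omega, pow_add, mul_assoc]

theorem val_mono : StrictMono val := by
  refine strictMono_nat_of_lt_succ fun N => ?_
  have h3 : 0 < 3 ^ (N / 128) := by positivity
  by_cases h : N % 128 = 127
  · rw [val, val, h, show (N + 1) % 128 = 0 by omega, show (N + 1) / 128 = N / 128 + 1 by omega,
      pow_succ]
    omega
  · rw [val, val, show (N + 1) % 128 = N % 128 + 1 by omega, show (N + 1) / 128 = N / 128 by omega]
    exact Nat.mul_lt_mul_of_pos_right (by omega) h3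

/-- the test point with index `N` -/
noncomputable def pt (N : ℕ) : ℝ := val N / 3 ^ 127

theorem pt_mono : StrictMono pt := fun _ _ h =>
  div_lt_div_of_pos_right (by exact_mod_cast val_mono h) (by positivity)

theorem pt_pos (N : ℕ) : 0 < pt N := by
  have : 0 < val N := by
    rw [val]
    positivity
  rw [pt]
  positivity

theorem sgnA_spec {B n r : ℕ} (hB : (n - 1).factorial < B) (h : (A n).natDegree < r) :
    ∃ P : ℕ → ℕ → Bool, (∀ k, sgnA B r (aN B n) k = k P) ∧
      ∀ i N, P i N = true → 0 < (-1) ^ i * cc (pt N) n := by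
  have hc : ∀ c ∈ (List.range r).map (cf n), c < B := fun c hc => by
    obtain ⟨j, -, rfl⟩ := List.mem_map.1 hc
    exact (cf_le n j).trans_lt hB
  obtain ⟨e, o, h1, h2⟩ := sgn_spec B 127 _ hc
  obtain ⟨e', o', h3, h4⟩ := sgn_spec B 20 _ hc
  rw [List.length_map, List.length_range, ← aN_eq B h] at h1 h3
  refine ⟨sgn2 e o e' o', fun k => by rw [sgnA, h1, h3], fun i N hP => ?_⟩
  rw [cc, aeval_eq _ h]
  rw [sgn2, frc_eq, frc_eq] at hP
  by_cases hN : N < 13696
  · rw [show Nat.blt N 13696 = true by simpa using hN, cond_true] at hP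
    exact h2 i _ hP
  · rw [Bool.eq_false_iff.2 fun h' : Nat.blt N 13696 = true => hN (by simpa using h'),
      cond_false] at hP
    have := h4 i _ hP
    rwa [show (val (N - 13696) : ℝ) / 3 ^ 20 = pt N by
      rw [pt, val_shift (not_lt.1 hN), show 127 = 20 + 107 from rfl, pow_add]
      rw [Nat.cast_mul, Nat.cast_pow, Nat.cast_ofNat,
        mul_div_mul_right _ _ (by positivity)]] at this

/-- the indices of the test points -/
def seq : List ℕ → ℕ → ℕ → ℕ
  | [], acc, t => acc + t
  | g :: _, acc, 0 => acc + g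
  | g :: L, acc, t + 1 => seq L (acc + g + 1) t

theorem seq_mono (L : List ℕ) : ∀ acc, acc ≤ seq L acc 0 ∧ StrictMono (seq L acc) := by
  induction L with
  | nil => exact fun acc => ⟨le_rfl, fun _ _ h => Nat.add_lt_add_left h acc⟩
  | cons g L ih =>
    refine fun acc => ⟨Nat.le_add_right _ _, strictMono_nat_of_lt_succ ?_⟩
    rintro (_ | t)
    · exact (ih _).1
    · exact (ih _).2 (Nat.lt_succ_self t)

theorem allPts_spec (P : ℕ → ℕ → Bool) (L : List ℕ) : ∀ i acc, allPts P L i acc = true →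
    ∀ t < L.length, P (i + t) (seq L acc t) = true := by
  induction L with
  | nil => intro _ _ _ t ht; simp at ht
  | cons g L ih =>
    intro i acc h t ht
    rw [allPts, frc_eq, frc_eq, Bool.and_eq_true] at h
    rcases t with _ | t
    · exact h.1
    · have := ih _ _ h.2 t (by simpa using ht)
      rwa [show i + 1 + t = i + (t + 1) by omega] at this

theorem chk1_spec {B : ℕ} (hB : (199 : ℕ).factorial < B) (ts : List (List ℕ)) :
    ∀ (f n : ℕ), n ≤ 200 → chk1 B ((List.range f).map fun i => aN B (n - i)) ts n = true →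
      ∀ m, 2 ≤ m → m ≤ n → n < m + ts.length → ∃ u : ℕ → ℝ, StrictMono u ∧ 0 < u 0 ∧
        ∀ i < m / 2, 0 < (-1) ^ i * cc (u i) m := by
  induction ts with
  | nil => intro f n _ _ m _ h1 h2; simp at h2; omega
  | cons t ts ih =>
    intro f n hn h m h0 h1 h2
    rcases f with _ | f
    · simp [chk1] at h
    rw [List.range_succ_eq_map, List.map_cons, List.map_map, chk1, frc_eq, Bool.and_eq_true,
      Bool.and_eq_true] at h
    obtain ⟨⟨h3, h4⟩, h5⟩ := h
    rcases h1.eq_or_lt with rfl | h1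
    · obtain ⟨P, p1, p2⟩ := sgnA_spec (B := B) (n := m) (r := m / 2 + 1)
        ((Nat.factorial_le (by omega)).trans_lt hB) (Nat.lt_succ_of_le (natDegree_A h0))
      rw [Nat.sub_zero, p1] at h4
      refine ⟨fun i => pt (seq t 0 i), pt_mono.comp (seq_mono t 0).2, pt_pos _, fun i hi => ?_⟩
      have := allPts_spec P t 0 0 h4 i (by rwa [Nat.eq_of_beq_eq_true h3])
      rw [zero_add] at this
      exact p2 _ _ this
    · refine ih f (n - 1) (by omega) ?_ m h0 (by omega) (by simp at h2; omega)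
      rw [← h5]
      congr 1
      refine List.map_congr_left fun i _ => ?_
      simp only [Function.comp, Nat.succ_eq_add_one]
      congr 1
      omega

theorem chkA_spec {B j : ℕ} (hB : (199 : ℕ).factorial < B) (hj : j ≤ 200) {ts : List (List ℕ)}
    (h : chkA B j ts = true) (m : ℕ) (h0 : 2 ≤ m) (h1 : m ≤ 200 - j)
    (h2 : 200 - j < m + ts.length) : ∃ u : ℕ → ℝ, StrictMono u ∧ 0 < u 0 ∧
      ∀ i < m / 2, 0 < (-1) ^ i * cc (u i) m := by
  refine chk1_spec hB ts (200 - j) (200 - j) (by omega) ?_ m h0 h1 h2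
  rw [chkA, frc_eq, aAll_eq B (aN B) (aN_cast B)] at h
  rw [← h]
  congr 1
  apply List.ext_getElem
  · simp
  · intro i _ _
    simp only [List.getElem_map, List.getElem_range, List.getElem_drop]
    congr 1
    omega

theorem chkB_spec {B : ℕ} (hB : (199 : ℕ).factorial < B) {t : List ℕ} (h : chkB B t = true) :
    ∃ u : ℕ → ℝ, StrictMono u ∧ 0 < u 0 ∧ ∀ i ≤ 197,
      0 < (-1) ^ ((i + 1) / 2) * cc (u i) 200 ∧ 0 < (-1) ^ (i / 2) * cc (u i) 199 := by
  rw [chkB, frc_eq, aAll_eq B (aN B) (aN_cast B), List.range_succ_eq_map, List.map_cons,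
    List.range_succ_eq_map, List.map_cons, List.map_cons, chk2, Bool.and_eq_true] at h
  obtain ⟨P, p1, p2⟩ := sgnA_spec (B := B) (n := 200) (r := 101) hB
    (Nat.lt_succ_of_le (natDegree_A (by norm_num)))
  obtain ⟨Q, q1, q2⟩ := sgnA_spec (B := B) (n := 199) (r := 100)
    ((Nat.factorial_le (by norm_num)).trans_lt hB) (Nat.lt_succ_of_le (natDegree_A (by norm_num)))
  obtain ⟨h3, h4⟩ := h
  rw [show 200 - 0 = 200 from rfl, show 200 - Nat.succ 0 = 199 from rfl, p1, q1] at h4
  refine ⟨fun i => pt (seq t 0 i), pt_mono.comp (seq_mono t 0).2, pt_pos _, fun i hi => ?_⟩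
  have := allPts_spec _ t 0 0 h4 i (by rw [Nat.eq_of_beq_eq_true h3]; omega)
  rw [zero_add, Bool.and_eq_true] at this
  exact ⟨p2 _ _ this.1, q2 _ _ this.2⟩

end Pool.Agent.MP_dbd6a6_co.H57
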