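import Pool.Agent.MP_dbd6a6_co.H57.Comp

/-! Test points and the kernel computation. -/

namespace Pool.Agent.MP_dbd6a6_co.H57

def tMix : List ℕ := [565, 70, 3290, 3271, 1337, 1330, 717, 718, 453, 452, 312, 310, 229, 233, 166,
  162, 135, 135, 108, 105, 89, 90, 77, 78, 62, 60, 49, 48, 44, 42, 46, 44, 30, 31, 34, 33, 23, 24,
  33, 32, 14, 15, 20, 20, 26, 24, 11, 11, 12, 13, 16, 16, 18, 19, 9, 8, 8, 8, 9, 10, 10, 11, 12, 12,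
  13, 12, 5, 4, 5, 5, 6, 6, 6, 7, 7, 7, 7, 8, 9, 9, 9, 9, 4, 3, 3, 3, 4, 3, 4, 4, 4, 4, 5, 4, 5, 6,
  5, 6, 5, 6, 7, 7, 7, 7, 3, 2, 2, 2, 3, 2, 3, 3, 3, 3, 3, 4, 4, 3, 4, 5, 4, 5, 5, 5, 6, 5, 6, 7, 7,
  5, 2, 2, 2, 3, 2, 3, 3, 3, 3, 4, 3, 4, 5, 4, 5, 5, 6, 6, 6, 7, 8, 8, 7, 5, 3, 3, 3, 4, 3, 5, 5, 5,
  6, 6, 7, 8, 8, 10, 11, 12, 9, 6, 5, 6, 7, 7, 9, 11, 12, 15, 17, 17, 12, 10, 12, 15, 20, 26, 27,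
  21, 23, 34, 43, 43, 60, 83, 127, 115]

theorem chkMix : chkB (3 ^ 793) tMix = true := by decide +kernel

end Pool.Agent.MP_dbd6a6_co.H57
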