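import Pool.Agent.MP_dbd6a6_co.H57.Corr
import Pool.Agent.MP_dbd6a6_co.H57.Data1
import Pool.Agent.MP_dbd6a6_co.H57.Data2
import Pool.Agent.MP_dbd6a6_co.H57.Data3
import Pool.Agent.MP_dbd6a6_co.H57.Data4

/-! The finite check. -/

namespace Pool.Agent.MP_dbd6a6_co.H57

theorem fact_lt : (199 : ℕ).factorial < 3 ^ 793 := by decide +kernel

theorem fin : H70.FinStmt := by
  refine ⟨fun n h0 h1 => ?_, chkB_spec fact_lt chkMix⟩
  by_cases h2 : 176 ≤ n
  · exact chkA_spec fact_lt (by norm_num) ok1 n h0 (by omega) (by rw [len1]; omega)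
  by_cases h3 : 141 ≤ n
  · exact chkA_spec fact_lt (by norm_num) ok2 n h0 (by omega) (by rw [len2]; omega)
  · exact chkA_spec fact_lt (by norm_num) ok3 n h0 (by omega) (by rw [len3]; omega)

end Pool.Agent.MP_dbd6a6_co.H57
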